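import Pool.Agent.T9h42.GF.Spec3
import Pool.Agent.T9h58.GF.Count

/-!
# Few pairs of polynomials are not coprime
-/

set_option autoImplicit false
set_option linter.unusedSectionVars false

namespace Pool.Agent.T9h73.GF

open Polynomial Finset
open Pool.Agent.T9h42.GF Pool.Agent.T9h58.GF

section

variable {k : Type} [Field k] [Fintype k]

theorem geo {q : ℝ} (hq : 2 ≤ q) (a b : ℕ) : ∑ n ∈ Ico a b, (1 / q) ^ n ≤ 2 * (1 / q) ^ a := by
  have h0 : 0 ≤ 1 / q := by positivity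
  have h1 : 1 / q ≤ 1 / 2 := by
    apply one_div_le_one_div_of_le <;> linarith
  refine (geom_sum_Ico_le_of_lt_one h0 (by linarith)).trans ?_
  rw [div_le_iff₀ (by linarith)]
  have : 0 ≤ (1 / q) ^ a := by positivity
  nlinarith

/-- a common monic irreducible divisor -/
theorem exists_irr {x y M : k[X]} (hx : x.Monic) (hxM : IsCoprime x M)
    (h : ¬ IsCoprime x y) : ∃ π : k[X], Irreducible π ∧ π.Monic ∧ π ∣ x ∧ π ∣ y ∧ IsCoprime π M := by
  by_contra hcon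
  push Not at hcon
  refine h (isCoprime_of_irreducible_dvd (fun h => hx.ne_zero h.1) fun z hz h1 h2 => ?_)
  have hz0 := hz.ne_zero
  have hu : IsUnit (C z.leadingCoeff⁻¹) :=
    isUnit_C.2 (isUnit_iff_ne_zero.2 (inv_ne_zero (leadingCoeff_ne_zero.2 hz0)))
  have hass : Associated z (z * C z.leadingCoeff⁻¹) := (associated_mul_unit_right z _ hu)
  exact hcon _ (hass.irreducible hz) (monic_mul_leadingCoeff_inv hz0) (hass.symm.dvd.trans h1)
    (hass.symm.dvd.trans h2) (hxM.of_isCoprime_of_dvd_left (hass.symm.dvd.trans h1))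

open Classical in
/-- the number of elements of `Cop M D` divisible by `π` -/
noncomputable def nd (M : k[X]) (D : ℕ) (π : k[X]) : ℕ := ((Cop M D).filter (π ∣ ·)).card

theorem nd_eq (M : k[X]) (D : ℕ) (π : k[X]) :
    nd M D π = {x ∈ (Cop M D : Set k[X]) | π ∣ x}.ncard := by
  classical
  unfold nd
  rw [← Set.ncard_coe_finset]
  congr 1
  ext x
  simp

open Classical in
theorem nonCop_bound (M : k[X]) (hM : M ≠ 0) (w : ℕ)
    (hw : ∀ π : k[X], Irreducible π → π.natDegree ≤ w → π ∣ M) (D₁ D₂ : ℕ)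
    (h1 : M.natDegree ≤ D₁) (h2 : M.natDegree ≤ D₂) :
    (((Cop M D₁ ×ˢ Cop M D₂).filter (fun p => ¬ IsCoprime p.1 p.2)).card : ℝ) ≤
      ((Cop M D₁).card * (Cop M D₂).card : ℝ) *
        (2 * (1 / (Fintype.card k : ℝ)) ^ (w + 1) + (Fintype.card k : ℝ) ^ (2 * M.natDegree) *
          (2 * (1 / (Fintype.card k : ℝ)) ^ (min D₁ D₂ - M.natDegree + 1))) := by
  classical
  obtain ⟨q, hq⟩ : ∃ q : ℝ, q = (Fintype.card k : ℝ) := ⟨_, rfl⟩
  have hq2 : 2 ≤ q := by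
    rw [hq]; exact_mod_cast Fintype.one_lt_card (α := k)
  have hq0 : 0 < q := by linarith
  obtain ⟨μ, hμ⟩ : ∃ μ, μ = M.natDegree := ⟨_, rfl⟩
  obtain ⟨D, hD⟩ : ∃ D, D = min D₁ D₂ := ⟨_, rfl⟩
  rw [← hq, ← hμ, ← hD]
  -- covering
  have hsub : (Cop M D₁ ×ˢ Cop M D₂).filter (fun p => ¬ IsCoprime p.1 p.2) ⊆
      (Ico (w + 1) (D + 1)).biUnion fun n => (Cop M n).biUnion fun π =>
        ((Cop M D₁).filter (π ∣ ·)) ×ˢ ((Cop M D₂).filter (π ∣ ·)) := by
    rintro ⟨x, y⟩ hxy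
    rw [Finset.mem_filter, Finset.mem_product] at hxy
    obtain ⟨⟨hx, hy⟩, hne⟩ := hxy
    obtain ⟨x1, x2, x3⟩ := (mem_Cop M x D₁).1 hx
    obtain ⟨y1, y2, y3⟩ := (mem_Cop M y D₂).1 hy
    have y2' : y.natDegree = D₂ := y2
    obtain ⟨π, p1, p2, p3, p4, p5⟩ := exists_irr x1 x3 hne
    have hlt : w < π.natDegree := by
      by_contra hle
      have hd := hw π p1 (not_lt.1 hle)
      exact p1.not_isUnit (p5.isUnit_of_dvd' dvd_rfl hd)
    have d1 := natDegree_le_of_dvd p3 x1.ne_zero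
    have d2 : π.natDegree ≤ y.natDegree := natDegree_le_of_dvd p4 y1.ne_zero
    refine Finset.mem_biUnion.2 ⟨π.natDegree, Finset.mem_Ico.2 ⟨by omega, ?_⟩,
      Finset.mem_biUnion.2 ⟨π, (mem_Cop M π _).2 ⟨p2, rfl, p5⟩, ?_⟩⟩
    · rw [hD]; omega
    · exact Finset.mem_product.2 ⟨Finset.mem_filter.2 ⟨hx, p3⟩, Finset.mem_filter.2 ⟨hy, p4⟩⟩
  have hcard : (((Cop M D₁ ×ˢ Cop M D₂).filter (fun p => ¬ IsCoprime p.1 p.2)).card : ℝ) ≤
      ∑ n ∈ Ico (w + 1) (D + 1), ∑ π ∈ Cop M n, (nd M D₁ π : ℝ) * nd M D₂ π := by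
    have h3 : ((Cop M D₁ ×ˢ Cop M D₂).filter (fun p => ¬ IsCoprime p.1 p.2)).card ≤
        ∑ n ∈ Ico (w + 1) (D + 1), ∑ π ∈ Cop M n, nd M D₁ π * nd M D₂ π := by
      refine (Finset.card_le_card hsub).trans ?_
      refine Finset.card_biUnion_le.trans (Finset.sum_le_sum fun n _ => ?_)
      refine Finset.card_biUnion_le.trans (Finset.sum_le_sum fun π _ => ?_)
      rw [Finset.card_product]; rfl
    exact_mod_cast h3
  -- bound for one `π`
  obtain ⟨c1, hc1⟩ : ∃ c1 : ℝ, c1 = (Cop M D₁).card := ⟨_, rfl⟩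
  obtain ⟨c2, hc2⟩ : ∃ c2 : ℝ, c2 = (Cop M D₂).card := ⟨_, rfl⟩
  have c10 : 0 ≤ c1 := by rw [hc1]; positivity
  have c20 : 0 ≤ c2 := by rw [hc2]; positivity
  have one : ∀ (Di : ℕ), μ ≤ Di → D ≤ Di → ∀ n, ∀ π ∈ Cop M n, n ≤ D →
      (nd M Di π : ℝ) ≤ (if D < n + μ then q ^ μ else 1) * (Cop M Di).card * (1 / q) ^ n := by
    intro Di hi hDi n π hπ hn
    obtain ⟨p2, p3, p5⟩ := (mem_Cop M π n).1 hπ
    obtain ⟨e1, e2⟩ := divCount k M hM π Di p2 p5 (hμ ▸ hi)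
    rw [← nd_eq, p3] at e1 e2
    have hqn : (1 / q) ^ n * q ^ n = 1 := by
      rw [← mul_pow, one_div_mul_cancel hq0.ne', one_pow]
    have hqn' : 0 < q ^ n := by positivity
    have key : ∀ A : ℝ, (nd M Di π : ℝ) * q ^ n ≤ A → (nd M Di π : ℝ) ≤ A * (1 / q) ^ n := by
      intro A hA
      calc (nd M Di π : ℝ) = (nd M Di π : ℝ) * q ^ n * (1 / q) ^ n := by
            rw [mul_assoc, mul_comm (q ^ n), hqn, mul_one]
        _ ≤ A * (1 / q) ^ n := mul_le_mul_of_nonneg_right hA (by positivity)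
    apply key
    split_ifs with hlt
    · rw [hq, hμ]; exact_mod_cast e2
    · rw [one_mul, hq]
      have := e1 (by rw [← hμ]; omega)
      exact_mod_cast this.le
  have hn : ∀ n ∈ Ico (w + 1) (D + 1), ∑ π ∈ Cop M n, (nd M D₁ π : ℝ) * nd M D₂ π ≤
      c1 * c2 * ((1 / q) ^ n + if D < n + μ then q ^ (2 * μ) * (1 / q) ^ n else 0) := by
    intro n hn
    rw [Finset.mem_Ico] at hn
    have hcn : ((Cop M n).card : ℝ) ≤ q ^ n := by
      have h4 : (Cop M n).card ≤ Fintype.card k ^ n := by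
        rw [← (boxMem k).2.2.2.2 (X ^ n) n]
        unfold Cop
        exact Finset.card_filter_le _ _
      rw [hq]; exact_mod_cast h4
    have hqn : (1 / q) ^ n * q ^ n = 1 := by
      rw [← mul_pow, one_div_mul_cancel hq0.ne', one_pow]
    obtain ⟨γ, hγ⟩ : ∃ γ : ℝ, γ = if D < n + μ then q ^ μ else 1 := ⟨_, rfl⟩
    have hγ0 : 0 ≤ γ := by rw [hγ]; split_ifs <;> positivity
    have hγ2 : γ * γ * (1 / q) ^ n ≤
        (1 / q) ^ n + if D < n + μ then q ^ (2 * μ) * (1 / q) ^ n else 0 := by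
      rw [hγ]
      split_ifs
      · rw [← pow_add, ← two_mul]
        have : 0 ≤ (1 / q) ^ n := by positivity
        linarith
      · simp
    calc ∑ π ∈ Cop M n, (nd M D₁ π : ℝ) * nd M D₂ π
        ≤ ∑ π ∈ Cop M n, (γ * c1 * (1 / q) ^ n) * (γ * c2 * (1 / q) ^ n) := by
          refine Finset.sum_le_sum fun π hπ => ?_
          refine mul_le_mul ?_ ?_ (Nat.cast_nonneg _) (by positivity)
          · rw [hγ, hc1]
            exact one D₁ (hμ ▸ h1) (hD ▸ min_le_left _ _) n π hπ (by omega)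
          · rw [hγ, hc2]
            exact one D₂ (hμ ▸ h2) (hD ▸ min_le_right _ _) n π hπ (by omega)
      _ = ((Cop M n).card : ℝ) * ((γ * c1 * (1 / q) ^ n) * (γ * c2 * (1 / q) ^ n)) := by
          rw [Finset.sum_const, nsmul_eq_mul]
      _ ≤ q ^ n * ((γ * c1 * (1 / q) ^ n) * (γ * c2 * (1 / q) ^ n)) :=
          mul_le_mul_of_nonneg_right hcn (by positivity)
      _ = c1 * c2 * (γ * γ * (1 / q) ^ n) * ((1 / q) ^ n * q ^ n) := by ring
      _ = c1 * c2 * (γ * γ * (1 / q) ^ n) := by rw [hqn, mul_one]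
      _ ≤ _ := mul_le_mul_of_nonneg_left hγ2 (by positivity)
  refine hcard.trans ((Finset.sum_le_sum hn).trans ?_)
  rw [← Finset.mul_sum, ← hc1, ← hc2]
  refine mul_le_mul_of_nonneg_left ?_ (by positivity)
  rw [Finset.sum_add_distrib]
  refine add_le_add (geo hq2 _ _) ?_
  rw [← Finset.sum_filter, ← Finset.mul_sum]
  refine mul_le_mul_of_nonneg_left ?_ (by positivity)
  refine (Finset.sum_le_sum_of_subset_of_nonneg (t := Ico (D - μ + 1) (D + 1)) ?_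
    fun _ _ _ => by positivity).trans (geo hq2 _ _)
  intro n hn
  rw [Finset.mem_filter, Finset.mem_Ico] at hn
  rw [Finset.mem_Ico]
  omega

end

/-- PIECE `NonCop` -/
theorem nonCop : NonCop := by
  intro k _ _ ε hε
  obtain ⟨q, hq⟩ : ∃ q : ℝ, q = (Fintype.card k : ℝ) := ⟨_, rfl⟩
  have hq2 : 2 ≤ q := by
    rw [hq]; exact_mod_cast Fintype.one_lt_card (α := k)
  have hq0 : 0 < q := by linarith
  have h0 : 0 ≤ 1 / q := by positivity
  have h1 : 1 / q < 1 := by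
    rw [div_lt_one hq0]; linarith
  have hex : ∀ δ : ℝ, 0 < δ → ∃ n₀ : ℕ, ∀ n, n₀ ≤ n → (1 / q) ^ n ≤ δ := by
    intro δ hδ
    obtain ⟨n₀, hn₀⟩ := exists_pow_lt_of_lt_one hδ h1
    exact ⟨n₀, fun n hn => (pow_le_pow_of_le_one h0 h1.le hn).trans hn₀.le⟩
  obtain ⟨w₀, hw₀⟩ := hex (ε / 4) (by positivity)
  refine ⟨w₀, fun w hw M hM hπ => ?_⟩
  obtain ⟨n₁, hn₁⟩ := hex (ε / (4 * q ^ (2 * M.natDegree))) (by positivity)
  refine ⟨n₁ + M.natDegree, fun D₁ D₂ hD₁ hD₂ => ?_⟩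
  refine (nonCop_bound M hM w hπ D₁ D₂ (by omega) (by omega)).trans ?_
  rw [← hq]
  have e1 := hw₀ (w + 1) (by omega)
  have e2 := hn₁ (min D₁ D₂ - M.natDegree + 1) (by omega)
  have e3 : q ^ (2 * M.natDegree) * (1 / q) ^ (min D₁ D₂ - M.natDegree + 1) ≤ ε / 4 := by
    have h5 : 0 < q ^ (2 * M.natDegree) := by positivity
    calc q ^ (2 * M.natDegree) * (1 / q) ^ (min D₁ D₂ - M.natDegree + 1)
        ≤ q ^ (2 * M.natDegree) * (ε / (4 * q ^ (2 * M.natDegree))) :=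
          mul_le_mul_of_nonneg_left e2 h5.le
      _ = ε / 4 := by field_simp
  have hT : 2 * (1 / q) ^ (w + 1) + q ^ (2 * M.natDegree) *
      (2 * (1 / q) ^ (min D₁ D₂ - M.natDegree + 1)) ≤ ε := by linarith
  refine (mul_le_mul_of_nonneg_left hT (by positivity)).trans (le_of_eq ?_)
  ring

end Pool.Agent.T9h73.GF
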