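import Pool.Agent.T9h42.GF.Spec

/-!
# The large sieve inequality over `k[X]`, `k` finite
-/

set_option autoImplicit false
set_option linter.unusedSectionVars false

namespace Pool.Agent.T9h73.GF

open Polynomial Finset
open Pool.Agent.T9h42.GF

/-! ### Parseval -/

theorem parseval {G : Type} [AddCommGroup G] [Fintype G] [DecidableEq G] {ι : Type}
    (S : Finset ι) (a : ι → ℝ) (e : ι → G) :
    ∑ ψ : AddChar G ℂ, ‖∑ f ∈ S, (a f : ℂ) * ψ (e f)‖ ^ 2 =
      Fintype.card G * ∑ f ∈ S, ∑ f' ∈ S, if e f = e f' then a f * a f' else 0 := by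
  have key : ((∑ ψ : AddChar G ℂ, ‖∑ f ∈ S, (a f : ℂ) * ψ (e f)‖ ^ 2 : ℝ) : ℂ) =
      ((Fintype.card G * ∑ f ∈ S, ∑ f' ∈ S, if e f = e f' then a f * a f' else 0 : ℝ) : ℂ) := by
    push_cast
    have h1 : ∀ ψ : AddChar G ℂ, ((‖∑ f ∈ S, (a f : ℂ) * ψ (e f)‖ : ℂ)) ^ 2 =
        ∑ f ∈ S, ∑ f' ∈ S, ((a f : ℂ) * (a f' : ℂ)) * ψ (e f - e f') := by
      intro ψ
      rw [← Complex.mul_conj', map_sum, Finset.sum_mul_sum]
      refine Finset.sum_congr rfl fun f _ => Finset.sum_congr rfl fun f' _ => ?_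
      rw [map_mul, Complex.conj_ofReal, sub_eq_add_neg, AddChar.map_add_eq_mul,
        AddChar.map_neg_eq_conj]
      ring
    simp only [h1]
    rw [Finset.sum_comm, Finset.mul_sum]
    refine Finset.sum_congr rfl fun f _ => ?_
    rw [Finset.sum_comm, Finset.mul_sum]
    refine Finset.sum_congr rfl fun f' _ => ?_
    rw [← Finset.mul_sum, AddChar.sum_apply_eq_ite]
    by_cases h : e f = e f'
    · simp [h]; ring
    · have : e f - e f' ≠ 0 := sub_ne_zero.2 h
      simp [h, this]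
  exact_mod_cast key

/-! ### Characters that are trivial on an ideal -/

section chars

variable {k : Type} [Field k] [Fintype k]

theorem finite_adj {h : k[X]} (hm : h.Monic) : Finite (AdjoinRoot h) := by
  have := hm.finite_adjoinRoot
  exact Module.finite_of_finite k

theorem card_adj {h : k[X]} (hm : h.Monic) [Fintype (AdjoinRoot h)] :
    Fintype.card (AdjoinRoot h) = Fintype.card k ^ h.natDegree := by
  have := hm.finite_adjoinRoot
  have e : Module.finrank k (AdjoinRoot h) = h.natDegree := by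
    rw [(AdjoinRoot.powerBasis' hm).finrank, AdjoinRoot.powerBasis'_dim]
  rw [Module.card_eq_pow_finrank (K := k), e]

/-- the pull back of a character -/
noncomputable def pull (h : k[X]) (ψ : AddChar (AdjoinRoot h) ℂ) : AddChar k[X] ℂ :=
  ψ.compAddMonoidHom (AdjoinRoot.mk h).toAddMonoidHom

theorem pull_apply (h : k[X]) (ψ : AddChar (AdjoinRoot h) ℂ) (f : k[X]) :
    pull h ψ f = ψ (AdjoinRoot.mk h f) := rfl

theorem pull_inj (h : k[X]) : Function.Injective (pull h) := by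
  intro ψ ψ' e
  ext x
  obtain ⟨f, rfl⟩ := AdjoinRoot.mk_surjective x
  exact DFunLike.congr_fun e f

theorem exists_pull {h : k[X]} {χ : AddChar k[X] ℂ} (hχ : ∀ f, χ (h * f) = 1) :
    ∃ ψ, pull h ψ = χ := by
  have hs := AdjoinRoot.mk_surjective (g := h)
  have key : ∀ f g, AdjoinRoot.mk h f = AdjoinRoot.mk h g → χ f = χ g := by
    intro f g e
    obtain ⟨c, hc⟩ := AdjoinRoot.mk_eq_mk.1 e
    have : f = h * c + g := by rw [← hc]; ring
    rw [this, AddChar.map_add_eq_mul, hχ, one_mul]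
  refine ⟨⟨fun x => χ (Function.surjInv hs x), ?_, ?_⟩, ?_⟩
  · have : χ (Function.surjInv hs 0) = χ 0 := key _ _ (by rw [Function.surjInv_eq hs, map_zero])
    rw [this, AddChar.map_zero_eq_one]
  · intro x y
    rw [← AddChar.map_add_eq_mul]
    exact key _ _ (by rw [Function.surjInv_eq hs, map_add, Function.surjInv_eq hs,
      Function.surjInv_eq hs])
  · ext f
    exact key _ _ (Function.surjInv_eq hs _)

open Classical in
/-- the characters which are trivial on `(h)`, for monic `h` -/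
noncomputable def XX (h : k[X]) : Finset (AddChar k[X] ℂ) :=
  if hm : h.Monic then
    letI := finite_adj hm
    (univ : Finset (AddChar (AdjoinRoot h) ℂ)).image (pull h)
  else ∅

theorem mem_XX {h : k[X]} (hm : h.Monic) (χ : AddChar k[X] ℂ) :
    χ ∈ XX h ↔ ∀ f, χ (h * f) = 1 := by
  classical
  rw [XX, dif_pos hm]
  constructor
  · intro hχ f
    obtain ⟨ψ, -, rfl⟩ := Finset.mem_image.1 hχ
    rw [pull_apply, map_mul, AdjoinRoot.mk_self, zero_mul, AddChar.map_zero_eq_one]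
  · intro hχ
    have := finite_adj hm
    obtain ⟨ψ, rfl⟩ := exists_pull hχ
    exact Finset.mem_image_of_mem _ (Finset.mem_univ _)

theorem card_XX {h : k[X]} (hm : h.Monic) : (XX h).card ≤ Fintype.card k ^ h.natDegree := by
  classical
  rw [XX, dif_pos hm]
  have := finite_adj hm
  let := Fintype.ofFinite (AdjoinRoot h)
  refine Finset.card_image_le.trans ?_
  rw [Finset.card_univ, ← card_adj hm, ← AddChar.card_eq (α := AdjoinRoot h)]

/-- the square of the absolute value of the exponential sum -/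
noncomputable def FF (S : Finset k[X]) (a : k[X] → ℝ) (χ : AddChar k[X] ℂ) : ℝ :=
  ‖∑ f ∈ S, (a f : ℂ) * χ f‖ ^ 2

open Classical in
theorem sum_XX {b : k[X]} (hb : b.Monic) (S : Finset k[X]) (a : k[X] → ℝ) :
    ∑ χ ∈ XX b, FF S a χ = (Fintype.card k : ℝ) ^ b.natDegree *
      ∑ f ∈ S, ∑ f' ∈ S, (if b ∣ f - f' then a f * a f' else 0) := by
  have := finite_adj hb
  let := Fintype.ofFinite (AdjoinRoot b)
  rw [XX, dif_pos hb, Finset.sum_image fun x _ y _ h => pull_inj b h]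
  have h1 := parseval (G := AdjoinRoot b) S a (AdjoinRoot.mk b)
  rw [card_adj hb] at h1
  simp only [AdjoinRoot.mk_eq_mk] at h1
  push_cast at h1
  rw [← h1]
  exact Fintype.sum_equiv (Equiv.refl _) _ _ fun ψ => rfl

/-! ### Conductors -/

theorem exists_cond {b : k[X]} (hb : b ≠ 0) {χ : AddChar k[X] ℂ} (hχ : ∀ f, χ (b * f) = 1) :
    ∃ h, Cond χ h ∧ h ∣ b := by
  let I : Ideal k[X] :=
    { carrier := {h | ∀ f, χ (h * f) = 1}
      zero_mem' := fun f => by rw [zero_mul, AddChar.map_zero_eq_one]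
      add_mem' := fun {x y} hx hy f => by rw [add_mul, AddChar.map_add_eq_mul, hx f, hy f, one_mul]
      smul_mem' := fun c x hx f => by rw [smul_eq_mul, mul_comm c x, mul_assoc]; exact hx _ }
  have hI : ∀ h, h ∈ I ↔ ∀ f, χ (h * f) = 1 := fun h => Iff.rfl
  obtain ⟨g, hg⟩ := (IsPrincipalIdealRing.principal I).principal
  have hg' : ∀ h, h ∈ I ↔ g ∣ h := by
    intro h
    rw [hg]
    exact Ideal.mem_span_singleton
  have hg0 : g ≠ 0 := by
    rintro rfl
    exact hb (zero_dvd_iff.1 ((hg' b).1 ((hI b).2 hχ)))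
  have hlc : g.leadingCoeff ≠ 0 := leadingCoeff_ne_zero.2 hg0
  have hh2 : g * C g.leadingCoeff⁻¹ ∣ g :=
    ⟨C g.leadingCoeff, by rw [mul_assoc, ← C_mul, inv_mul_cancel₀ hlc, C_1, mul_one]⟩
  refine ⟨g * C g.leadingCoeff⁻¹, ⟨monic_mul_leadingCoeff_inv hg0, ?_, ?_⟩, ?_⟩
  · exact (hI _).1 ((hg' _).2 (dvd_mul_right _ _))
  · intro h' hh
    exact hh2.trans ((hg' h').1 ((hI h').2 hh))
  · exact hh2.trans ((hg' b).1 ((hI b).2 hχ))

theorem cond_unique {χ : AddChar k[X] ℂ} {h h' : k[X]} (h1 : Cond χ h) (h2 : Cond χ h') :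
    h = h' :=
  eq_of_monic_of_associated h1.1 h2.1
    (associated_of_dvd_dvd (h1.2.2 _ h2.2.1) (h2.2.2 _ h1.2.1))

open Classical in
/-- the characters with the conductor `h` -/
noncomputable def PP (h : k[X]) : Finset (AddChar k[X] ℂ) := (XX h).filter (Cond · h)

theorem mem_PP {h : k[X]} {χ : AddChar k[X] ℂ} : χ ∈ PP h ↔ Cond χ h := by
  classical
  unfold PP
  rw [Finset.mem_filter]
  exact ⟨fun h => h.2, fun hc => ⟨(mem_XX hc.1 χ).2 hc.2.1, hc⟩⟩

theorem FF_nonneg (S : Finset k[X]) (a : k[X] → ℝ) (χ : AddChar k[X] ℂ) : 0 ≤ FF S a χ := by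
  unfold FF; positivity

/-- the sum over the characters with the conductor `h` -/
noncomputable def WW (S : Finset k[X]) (a : k[X] → ℝ) (h : k[X]) : ℝ := ∑ χ ∈ PP h, FF S a χ

theorem WW_nonneg (S : Finset k[X]) (a : k[X] → ℝ) (h : k[X]) : 0 ≤ WW S a h :=
  Finset.sum_nonneg fun _ _ => FF_nonneg S a _

theorem WW_le (S : Finset k[X]) (a : k[X] → ℝ) {h : k[X]} (hm : h.Monic) {c : ℝ} (hc : 0 ≤ c)
    (H : ∀ χ, Cond χ h → FF S a χ ≤ c) : WW S a h ≤ (Fintype.card k : ℝ) ^ h.natDegree * c := by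
  classical
  have h1 : WW S a h ≤ (PP h).card • c :=
    Finset.sum_le_card_nsmul _ _ _ fun χ hχ => H χ (mem_PP.1 hχ)
  have h2 : (PP h).card ≤ Fintype.card k ^ h.natDegree :=
    (Finset.card_filter_le _ _).trans (card_XX hm)
  rw [nsmul_eq_mul] at h1
  refine h1.trans (mul_le_mul_of_nonneg_right ?_ hc)
  exact_mod_cast h2

/-! ### Boxes -/

theorem box_mem (g x : k[X]) (D : ℕ) : x ∈ Box g D ↔ (x - g).degree < D := by
  classical
  unfold Box
  rw [Finset.mem_image]
  constructor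
  · rintro ⟨v, -, rfl⟩
    rw [add_sub_cancel_left]
    exact degree_sum_fin_lt v
  · intro h
    refine ⟨fun i => (x - g).coeff i, Finset.mem_univ _, ?_⟩
    rw [← sub_eq_iff_eq_add'.1 (show x - g = _ from ?_)]
    ext n
    rw [finsetSum_coeff]
    simp only [coeff_C_mul_X_pow]
    by_cases hn : n < D
    · rw [Finset.sum_eq_single (⟨n, hn⟩ : Fin D)]
      · simp
      · intro b _ hb
        rw [if_neg]
        rintro rfl
        exact hb rfl
      · intro h; exact absurd (Finset.mem_univ _) h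
    · rw [coeff_eq_zero_of_degree_lt (h.trans_le (by exact_mod_cast not_lt.1 hn))]
      refine (Finset.sum_eq_zero fun b _ => ?_).symm
      rw [if_neg]
      rintro rfl
      exact hn b.2

theorem cop_mem (M x : k[X]) (D : ℕ) : x ∈ Cop M D ↔ x.Monic ∧ x.natDegree = D ∧ IsCoprime x M := by
  classical
  unfold Cop
  rw [Finset.mem_filter, box_mem, ← and_assoc]
  refine and_congr_left fun _ => ⟨fun h => ?_, fun ⟨h1, h2⟩ => ?_⟩
  · have e : x = X ^ D + (x - X ^ D) := by ring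
    refine ⟨?_, ?_⟩
    · rw [e]; exact monic_X_pow_add h
    · rw [e, natDegree_add_eq_left_of_degree_lt (by rwa [degree_X_pow]), natDegree_X_pow]
  · have hd : x.degree = (D : WithBot ℕ) := by rw [degree_eq_natDegree h1.ne_zero, h2]
    have := degree_sub_lt_left (p := x) (q := X ^ D) (by rw [hd, degree_X_pow]) h1.ne_zero
      (by rw [h1.leadingCoeff, leadingCoeff_X_pow])
    rwa [hd] at this

/-! ### Characters with conductors of large degree -/

theorem eq_of_eq_low {χ₁ χ₂ : AddChar k[X] ℂ} {h₁ h₂ : k[X]} {N : ℕ} (c₁ : Cond χ₁ h₁)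
    (c₂ : Cond χ₂ h₂) (hN : h₁.natDegree + h₂.natDegree ≤ N)
    (h : ∀ f : k[X], f.degree < N → χ₁ f = χ₂ f) : χ₁ = χ₂ := by
  ext f
  have hm : (h₁ * h₂).Monic := c₁.1.mul c₂.1
  have e := modByMonic_add_div f (h₁ * h₂)
  have e1 : χ₁ f = χ₁ (f %ₘ (h₁ * h₂)) := by
    conv_lhs => rw [← e]
    rw [AddChar.map_add_eq_mul, mul_assoc, c₁.2.1, mul_one]
  have e2 : χ₂ f = χ₂ (f %ₘ (h₁ * h₂)) := by
    conv_lhs => rw [← e]
    rw [AddChar.map_add_eq_mul, mul_comm h₁ h₂, mul_assoc, c₂.2.1, mul_one]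
  rw [e1, e2]
  refine h _ ((degree_modByMonic_lt f hm).trans_le ?_)
  rw [degree_eq_natDegree hm.ne_zero, c₁.1.natDegree_mul c₂.1]
  exact_mod_cast hN

theorem finite_lt (N : ℕ) : Finite (degreeLT k N) :=
  Finite.of_equiv _ (degreeLTEquiv k N).toEquiv.symm

theorem card_lt (N : ℕ) [Fintype (degreeLT k N)] :
    Fintype.card (degreeLT k N) = Fintype.card k ^ N := by
  classical
  rw [Fintype.card_congr (degreeLTEquiv k N).toEquiv, Fintype.card_fun, Fintype.card_fin]

/-- restriction of a character -/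
noncomputable def res (N : ℕ) (χ : AddChar k[X] ℂ) : AddChar (degreeLT k N) ℂ :=
  χ.compAddMonoidHom (degreeLT k N).subtype.toAddMonoidHom

theorem res_apply (N : ℕ) (χ : AddChar k[X] ℂ) (x : degreeLT k N) : res N χ x = χ (x : k[X]) := rfl

theorem sum_big (M : k[X]) (S : Finset k[X]) (a : k[X] → ℝ) (n N : ℕ) (h2 : 2 * n ≤ N)
    (hS : ∀ f ∈ S, f.degree < N) :
    ∑ h ∈ Cop M n, WW S a h ≤ (Fintype.card k : ℝ) ^ N * ∑ f ∈ S, a f ^ 2 := by
  classical
  have := finite_lt (k := k) N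
  let := Fintype.ofFinite (degreeLT k N)
  have hdisj : ∀ h ∈ Cop M n, ∀ h' ∈ Cop M n, h ≠ h' → Disjoint (PP h) (PP h') := by
    intro h _ h' _ hne
    rw [Finset.disjoint_left]
    intro χ h1 h2
    exact hne (cond_unique (mem_PP.1 h1) (mem_PP.1 h2))
  unfold WW
  rw [← Finset.sum_biUnion hdisj]
  let e : k[X] → degreeLT k N := fun f => if h : f ∈ degreeLT k N then ⟨f, h⟩ else 0
  have he : ∀ f ∈ S, ((e f : degreeLT k N) : k[X]) = f := by
    intro f hf
    have : f ∈ degreeLT k N := mem_degreeLT.2 (hS f hf)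
    simp only [e, dif_pos this]
  have hinj : Set.InjOn (res N)
      ((((Cop M n).biUnion PP : Finset (AddChar k[X] ℂ))) : Set (AddChar k[X] ℂ)) := by
    intro χ₁ h₁ χ₂ h₂ h12
    obtain ⟨g₁, m₁, n₁⟩ := Finset.mem_biUnion.1 h₁
    obtain ⟨g₂, m₂, n₂⟩ := Finset.mem_biUnion.1 h₂
    refine eq_of_eq_low (N := N) (mem_PP.1 n₁) (mem_PP.1 n₂) ?_ fun f hf => ?_
    · rw [((cop_mem M g₁ n).1 m₁).2.1, ((cop_mem M g₂ n).1 m₂).2.1]; omega
    · exact DFunLike.congr_fun h12 (⟨f, mem_degreeLT.2 hf⟩ : degreeLT k N)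
  have hF : ∀ χ : AddChar k[X] ℂ, FF S a χ = ‖∑ f ∈ S, (a f : ℂ) * (res N χ) (e f)‖ ^ 2 := by
    intro χ
    unfold FF
    congr 2
    refine Finset.sum_congr rfl fun f hf => ?_
    rw [res_apply, he f hf]
  calc ∑ χ ∈ (Cop M n).biUnion PP, FF S a χ
      = ∑ χ ∈ (Cop M n).biUnion PP, ‖∑ f ∈ S, (a f : ℂ) * (res N χ) (e f)‖ ^ 2 :=
        Finset.sum_congr rfl fun χ _ => hF χ
    _ = ∑ ψ ∈ ((Cop M n).biUnion PP).image (res N), ‖∑ f ∈ S, (a f : ℂ) * ψ (e f)‖ ^ 2 :=
        (Finset.sum_image (f := fun ψ : AddChar (degreeLT k N) ℂ =>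
          ‖∑ f ∈ S, (a f : ℂ) * ψ (e f)‖ ^ 2) hinj).symm
    _ ≤ ∑ ψ : AddChar (degreeLT k N) ℂ, ‖∑ f ∈ S, (a f : ℂ) * ψ (e f)‖ ^ 2 :=
        Finset.sum_le_sum_of_subset_of_nonneg (Finset.subset_univ _) fun _ _ _ => by positivity
    _ = (Fintype.card k : ℝ) ^ N * ∑ f ∈ S, a f ^ 2 := by
        rw [parseval, card_lt]
        push_cast
        congr 1
        refine Finset.sum_congr rfl fun f hf => ?_
        rw [Finset.sum_eq_single f]
        · rw [if_pos rfl, pow_two]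
        · intro f' hf' hne
          rw [if_neg]
          intro h
          exact hne (by rw [← he f hf, ← he f' hf', h])
        · intro h; exact absurd hf h

/-! ### Assembly -/

theorem cop_zero (M : k[X]) : Cop M 0 = {1} := by
  ext x
  rw [cop_mem, Finset.mem_singleton]
  constructor
  · rintro ⟨h1, h2, -⟩
    exact eq_one_of_monic_natDegree_zero h1 h2
  · rintro rfl
    exact ⟨monic_one, natDegree_one, isCoprime_one_left⟩

theorem WW_one (S : Finset k[X]) (a : k[X] → ℝ) : WW S a 1 ≤ (∑ f ∈ S, a f) ^ 2 := by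
  have h := WW_le S a (h := 1) monic_one (c := (∑ f ∈ S, a f) ^ 2) (by positivity) ?_
  · simpa using h
  · intro χ hχ
    have h1 : ∀ f, χ f = 1 := fun f => by simpa using hχ.2.1 f
    unfold FF
    simp only [h1, mul_one]
    rw [← Complex.ofReal_sum, Complex.norm_real, Real.norm_eq_abs, sq_abs]

open Classical in
/-- the sum over the characters trivial on `(b)` in terms of conductors -/
theorem sum_XX_le (M : k[X]) (S : Finset k[X]) (a : k[X] → ℝ) {b : k[X]} {Bd : ℕ} (hb : b.Monic)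
    (hd : b.natDegree ≤ Bd) (hc : IsCoprime b M) :
    ∑ χ ∈ XX b, FF S a χ ≤
      ∑ n ∈ range (Bd + 1), ∑ h ∈ Cop M n, if h ∣ b then WW S a h else 0 := by
  have hsub : XX b ⊆ ((range (Bd + 1)).sigma fun n => (Cop M n).filter (· ∣ b)).biUnion
      fun x => PP x.2 := by
    intro χ hχ
    obtain ⟨h, h1, h2⟩ := exists_cond hb.ne_zero ((mem_XX hb χ).1 hχ)
    refine Finset.mem_biUnion.2 ⟨⟨h.natDegree, h⟩, ?_, mem_PP.2 h1⟩
    rw [Finset.mem_sigma, Finset.mem_range, Finset.mem_filter, cop_mem]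
    exact ⟨Nat.lt_succ_of_le ((natDegree_le_of_dvd h2 hb.ne_zero).trans hd),
      ⟨h1.1, rfl, hc.of_isCoprime_of_dvd_left h2⟩, h2⟩
  refine (Finset.sum_le_sum_of_subset_of_nonneg hsub fun _ _ _ => FF_nonneg S a _).trans ?_
  rw [Finset.sum_biUnion, Finset.sum_sigma]
  · refine le_of_eq (Finset.sum_congr rfl fun n _ => ?_)
    rw [Finset.sum_filter]
    rfl
  · rintro ⟨n, h⟩ hx ⟨n', h'⟩ hx' hne
    rw [Function.onFun, Finset.disjoint_left]
    intro χ h1 h2
    have e := cond_unique (mem_PP.1 h1) (mem_PP.1 h2)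
    simp only at e
    subst e
    simp only [Finset.coe_sigma, Set.mem_sigma_iff, Finset.mem_coe, Finset.mem_filter, cop_mem]
      at hx hx'
    apply hne
    rw [← hx.2.1.2.1, ← hx'.2.1.2.1]

end chars

/-- PIECE `Sieve` -/
theorem sieve : Sieve := by
  classical
  intro k _ _ M S a H Θ _ B Bd D₀ G p hS ha hB hG hp hp0
  -- the number of `t` with `h ∣ B t`
  let c : k[X] → ℝ := fun h => (({t | h ∣ B t}.ncard : ℕ) : ℝ)
  have hc0 : ∀ h, 0 ≤ c h := fun h => Nat.cast_nonneg _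
  have hc : ∀ h : k[X], c h = ∑ t : Θ, if h ∣ B t then (1 : ℝ) else 0 := by
    intro h
    simp only [c]
    rw [Finset.sum_boole, Set.ncard_eq_toFinset_card']
    congr 2
    ext t
    simp
  let T : ℕ → ℝ := fun n => ∑ h ∈ Cop M n, c h * WW S a h
  have hT0 : ∀ n, 0 ≤ T n := fun n => Finset.sum_nonneg fun h _ =>
    mul_nonneg (hc0 h) (WW_nonneg S a h)
  have hmain : ∑ t, (Fintype.card k : ℝ) ^ (B t).natDegree *
        ∑ f ∈ S, ∑ f' ∈ S, (if B t ∣ f - f' then a f * a f' else 0) ≤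
      ∑ n ∈ range (Bd + 1), T n := by
    calc ∑ t, (Fintype.card k : ℝ) ^ (B t).natDegree *
          ∑ f ∈ S, ∑ f' ∈ S, (if B t ∣ f - f' then a f * a f' else 0)
        = ∑ t, ∑ χ ∈ XX (B t), FF S a χ := by
          refine Finset.sum_congr rfl fun t _ => ?_
          rw [sum_XX (hB t).1]
      _ ≤ ∑ t, ∑ n ∈ range (Bd + 1), ∑ h ∈ Cop M n, (if h ∣ B t then WW S a h else 0) :=
          Finset.sum_le_sum fun t _ => sum_XX_le M S a (hB t).1 (hB t).2.1 (hB t).2.2
      _ = ∑ n ∈ range (Bd + 1), T n := by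
          rw [Finset.sum_comm]
          refine Finset.sum_congr rfl fun n _ => ?_
          rw [Finset.sum_comm]
          refine Finset.sum_congr rfl fun h _ => ?_
          rw [hc, Finset.sum_mul]
          refine Finset.sum_congr rfl fun t _ => ?_
          split_ifs <;> simp
  refine hmain.trans ?_
  have hrange : range (Bd + 1) ⊆ ({0} ∪ Icc 1 D₀) ∪ Icc (D₀ + 1) Bd := by
    intro n hn
    simp only [Finset.mem_range, Finset.mem_union, Finset.mem_singleton, Finset.mem_Icc] at hn ⊢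
    omega
  have h0 : T 0 ≤ (Fintype.card Θ : ℝ) * (∑ f ∈ S, a f) ^ 2 := by
    simp only [T]
    rw [cop_zero, Finset.sum_singleton]
    have : c 1 = Fintype.card Θ := by
      rw [hc]; simp
    rw [this]
    exact mul_le_mul_of_nonneg_left (WW_one S a) (Nat.cast_nonneg _)
  have h1 : ∑ n ∈ Icc 1 D₀, T n ≤ ∑ h ∈ ((Icc 1 D₀).biUnion (fun n => Cop M n)),
        (({t | h ∣ B t}.ncard : ℕ) : ℝ) * (Fintype.card k : ℝ) ^ h.natDegree * G h ^ 2 := by
    rw [Finset.sum_biUnion]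
    · refine Finset.sum_le_sum fun n hn => Finset.sum_le_sum fun h hh => ?_
      rw [Finset.mem_Icc] at hn
      obtain ⟨m1, m2, m3⟩ := (cop_mem M h n).1 hh
      rw [mul_assoc]
      refine mul_le_mul_of_nonneg_left ?_ (hc0 h)
      refine WW_le S a m1 (by positivity) fun χ hχ => ?_
      unfold FF
      exact pow_le_pow_left₀ (norm_nonneg _) (hG χ h hχ (by omega) (by omega) m3) 2
    · intro n _ n' _ hne
      rw [Function.onFun, Finset.disjoint_left]
      intro h m1 m2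
      exact hne (((cop_mem M h n).1 m1).2.1.symm.trans ((cop_mem M h n').1 m2).2.1)
  have h2 : ∑ n ∈ Icc (D₀ + 1) Bd, T n ≤
      ∑ n ∈ Icc (D₀ + 1) Bd, p n * (Fintype.card k : ℝ) ^ (max (2 * n) H) * ∑ f ∈ S, a f ^ 2 := by
    refine Finset.sum_le_sum fun n hn => ?_
    rw [Finset.mem_Icc] at hn
    calc T n ≤ ∑ h ∈ Cop M n, p n * WW S a h := by
          refine Finset.sum_le_sum fun h hh => ?_
          obtain ⟨m1, m2, m3⟩ := (cop_mem M h n).1 hh
          refine mul_le_mul_of_nonneg_right ?_ (WW_nonneg S a h)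
          have := hp h m1 m3 (by omega)
          rwa [m2] at this
      _ = p n * ∑ h ∈ Cop M n, WW S a h := by rw [Finset.mul_sum]
      _ ≤ p n * ((Fintype.card k : ℝ) ^ (max (2 * n) H) * ∑ f ∈ S, a f ^ 2) := by
          refine mul_le_mul_of_nonneg_left ?_ (hp0 n)
          refine sum_big M S a n (max (2 * n) H) (le_max_left _ _) fun f hf => ?_
          refine (hS f hf).trans_le ?_
          exact_mod_cast le_max_right _ _
      _ = _ := by ring
  calc ∑ n ∈ range (Bd + 1), T n ≤ ∑ n ∈ ({0} ∪ Icc 1 D₀) ∪ Icc (D₀ + 1) Bd, T n :=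
        Finset.sum_le_sum_of_subset_of_nonneg hrange fun n _ _ => hT0 n
    _ ≤ (∑ n ∈ ({0} ∪ Icc 1 D₀), T n) + ∑ n ∈ Icc (D₀ + 1) Bd, T n := by
        rw [← Finset.sum_union_inter]
        exact le_add_of_nonneg_right (Finset.sum_nonneg fun n _ => hT0 n)
    _ ≤ (T 0 + ∑ n ∈ Icc 1 D₀, T n) + ∑ n ∈ Icc (D₀ + 1) Bd, T n := by
        refine add_le_add_left ?_ _
        have := Finset.sum_union_inter (s₁ := ({0} : Finset ℕ)) (s₂ := Icc 1 D₀) (f := T)
        rw [Finset.sum_singleton] at this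
        rw [← this]
        exact le_add_of_nonneg_right (Finset.sum_nonneg fun n _ => hT0 n)
    _ ≤ _ := add_le_add (add_le_add h0 h1) h2

end Pool.Agent.T9h73.GF
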